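import Pool.Agent.H417_psn.D

/-!
# The basins of the Syracuse map along the negative odd integers of the form `-⌊n ^ c⌋`

Let `1 < c < 101/100`. The number of the `n ≤ X` for which `-⌊n ^ c⌋` is odd and lies in a set `S` invariant
under the Syracuse map is, up to `O(X ^ (1 - 1/4000))`, uniformly in `S`, the sum of
`(m + 1) ^ (1/c) - m ^ (1/c)` over the odd `m ≤ X ^ c` with `-m ∈ S`. So along the sequence the basins of all
cycles, known or not, and the set of the divergent orbits, have the same densities as among all negative odd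
integers, and Q1 holds iff it holds for almost all odd terms of the sequence.

Author: helper417. Uses the dispersion method of Pool/Agent/Y965/PL for the map `3 x - 1`, and
Pool/Agent/W26/HN.
-/

set_option autoImplicit false

namespace Pool.Agent.Results.MP_005f52_nt.PiatetskiShapiroBasins

open Filter Topology

/-- The Syracuse map. -/
def Syr (N : ℤ) : ℤ := (3 * N + 1) / 2 ^ padicValInt 2 (3 * N + 1)

/-- `S` is invariant: it contains a negative odd integer `N` iff it contains `Syr N`. -/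
def Invariant (S : Set ℤ) : Prop := ∀ N : ℤ, N < 0 → Odd N → (N ∈ S ↔ Syr N ∈ S)

/-- `Z` is a finite set of negative odd integers with `Syr(Z) ⊆ Z`, for example a periodic orbit, or a
union of periodic orbits. -/
def Closed (Z : Finset ℤ) : Prop := ∀ y ∈ Z, y < 0 ∧ Odd y ∧ Syr y ∈ Z

/-- Among the negative odd integers, those with the property `P` have natural density `δ`:
`2 / X` times the number of negative odd `N ≥ -X` with `P N` tends to `δ`. -/
def HasDensity (P : ℤ → Prop) (δ : ℝ) : Prop :=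
  Tendsto (fun X : ℕ => 2 / (X : ℝ) * ({N : ℤ | -(X : ℤ) ≤ N ∧ N < 0 ∧ Odd N ∧ P N}.ncard : ℝ))
    atTop (𝓝 δ)

/-- the number of the `n ≤ X` for which `-⌊n ^ c⌋` is odd and has the property `P` -/
noncomputable def Along (c : ℝ) (P : ℤ → Prop) (X : ℕ) : ℕ :=
  {n : ℕ | 1 ≤ n ∧ n ≤ X ∧ Odd (-⌊(n : ℝ) ^ c⌋) ∧ P (-⌊(n : ℝ) ^ c⌋)}.ncard

/-- Among the odd terms of the sequence `-⌊n ^ c⌋`, those with the property `P` have density `δ`:
`2 / X` times the number of the `n ≤ X` for which `-⌊n ^ c⌋` is odd and has the property `P` tends to `δ`.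
(For the property which holds always, `δ = 1`: see the theorem.) -/
def HasDensityAlong (c : ℝ) (P : ℤ → Prop) (δ : ℝ) : Prop :=
  Tendsto (fun X : ℕ => 2 / (X : ℝ) * (Along c P X : ℝ)) atTop (𝓝 δ)

open Classical in
/-- The number of the `n ≤ X` for which `-⌊n ^ c⌋` is odd and has the property `P` is, up to
`K X ^ (1 - 1/4000)`, the sum of `(m + 1) ^ (1/c) - m ^ (1/c)` over the odd `m ≤ X ^ c` for which `-m` has
the property `P`. -/
def Transfer (c K : ℝ) (P : ℤ → Prop) : Prop := ∀ X : ℕ, 1 ≤ X →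
  |(Along c P X : ℝ) - ∑ m ∈ (Finset.Icc 1 ⌊(X : ℝ) ^ c⌋₊).filter (fun m : ℕ => Odd (-(m : ℤ)) ∧ P (-(m : ℤ))),
    (((m : ℝ) + 1) ^ (1 / c) - (m : ℝ) ^ (1 / c))| ≤ K * (X : ℝ) ^ (1 - 1 / 4000 : ℝ)

/-- the union of the three known periodic orbits -/
def C : Finset ℤ := {-1, -5, -7, -17, -25, -37, -55, -41, -61, -91}

open Pool.Agent.W26.HN Pool.Agent.H499R2.ND in
theorem density_of {P : ℤ → Prop} {δ : ℝ} (h : Dn (fun n : ℕ => n % 2 = 1 ∧ P (-(n : ℤ))) (δ / 2)) :
    HasDensity P δ := by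
  unfold HasDensity
  have h1 := h.const_mul 2
  rw [mul_div_cancel₀ δ (by norm_num : (2 : ℝ) ≠ 0)] at h1
  refine h1.congr fun X => ?_
  have e : {N : ℤ | -(X : ℤ) ≤ N ∧ N < 0 ∧ Odd N ∧ P N}
      = (fun n : ℕ => -(n : ℤ)) '' {n : ℕ | 1 ≤ n ∧ n ≤ X ∧ n % 2 = 1 ∧ P (-(n : ℤ))} := by
    ext N
    constructor
    · rintro ⟨g1, g2, g3, g4⟩
      have g3' := Int.odd_iff.1 g3
      refine ⟨N.natAbs, ⟨by omega, by omega, by omega, ?_⟩, ?_⟩
      · have : -((N.natAbs : ℕ) : ℤ) = N := by omega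
        rw [this]; exact g4
      · show -((N.natAbs : ℕ) : ℤ) = N
        omega
    · rintro ⟨n, ⟨g1, g2, g3, g4⟩, rfl⟩
      refine ⟨?_, ?_, ?_, g4⟩
      · show -(X : ℤ) ≤ -(n : ℤ)
        omega
      · show -(n : ℤ) < 0
        omega
      · rw [Int.odd_iff]
        show -(n : ℤ) % 2 = 1
        omega
  rw [e, Set.ncard_image_of_injective _ (fun a b hab => by
    have : -(a : ℤ) = -(b : ℤ) := hab
    omega)]
  unfold cnt
  ring

theorem floor_eq (c : ℝ) (n : ℕ) : (⌊(n : ℝ) ^ c⌋ : ℤ) = ((⌊(n : ℝ) ^ c⌋₊ : ℕ) : ℤ) :=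
  (Int.natCast_floor_eq_floor (by positivity)).symm

theorem odd_neg_iff (n : ℕ) : Odd (-(n : ℤ)) ↔ n % 2 = 1 := by
  rw [Int.odd_iff]
  omega

theorem along_eq (c : ℝ) (P : ℤ → Prop) (X : ℕ) : Along c P X =
    {n : ℕ | 1 ≤ n ∧ n ≤ X ∧ (fun m : ℕ => m % 2 = 1 ∧ P (-(m : ℤ))) ⌊(n : ℝ) ^ c⌋₊}.ncard := by
  unfold Along
  congr 1
  ext n
  simp only [Set.mem_ofPred_eq]
  rw [floor_eq, odd_neg_iff]

open Pool.Agent.Y965.PL in
theorem along_of {c : ℝ} {P : ℤ → Prop} {δ : ℝ}
    (h : MnS (ps c) (ind (fun n : ℕ => n % 2 = 1 ∧ P (-(n : ℤ)))) (δ / 2)) : HasDensityAlong c P δ := by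
  have h1 := Pool.Agent.H417_psn.MnS_card h
  unfold HasDensityAlong
  refine h1.congr fun X => ?_
  rw [along_eq]

open Pool.Agent.Y965.PL in
theorem transfer_of {c K : ℝ} {P : ℤ → Prop}
    (h : TS c K (fun z => ind (fun n : ℕ => n % 2 = 1 ∧ P (-(n : ℤ))) z.toNat)) : Transfer c K P := by
  classical
  intro X hX
  have h1 := Pool.Agent.H417_psn.TS_card h X hX
  rw [along_eq]
  have e : (Finset.Icc 1 ⌊(X : ℝ) ^ c⌋₊).filter (fun m : ℕ => Odd (-(m : ℤ)) ∧ P (-(m : ℤ))) =
      (Finset.Icc 1 ⌊(X : ℝ) ^ c⌋₊).filter (fun m : ℕ => m % 2 = 1 ∧ P (-(m : ℤ))) := by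
    ext m
    simp only [Finset.mem_filter, odd_neg_iff]
  rw [e]
  convert h1

theorem along_unique {c : ℝ} {P : ℤ → Prop} {a b : ℝ} (h : HasDensityAlong c P a) (h' : HasDensityAlong c P b) :
    a = b := tendsto_nhds_unique h h'

theorem inv_conv {S : Set ℤ} (hS : Invariant S) :
    ∀ N : ℤ, N < 0 → N % 2 = 1 → (N ∈ S ↔ Pool.Agent.W26.HN.Sy N ∈ S) :=
  fun N hN hodd => hS N hN (Int.odd_iff.2 hodd)

theorem syr_eq {N M : ℤ} (v : ℕ) (h : 3 * N + 1 = 2 ^ v * M) (hM : M % 2 = 1) : Syr N = M :=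
  Pool.Agent.W26.HN.Sy_eq h hM

theorem closed_C : Closed C := by
  intro y hy
  unfold C at hy ⊢
  simp only [Finset.mem_insert, Finset.mem_singleton] at hy
  rcases hy with rfl | rfl | rfl | rfl | rfl | rfl | rfl | rfl | rfl | rfl
  · exact ⟨by norm_num, by decide, by rw [syr_eq (M := -1) 1 (by norm_num) (by norm_num)]; decide⟩
  · exact ⟨by norm_num, by decide, by rw [syr_eq (M := -7) 1 (by norm_num) (by norm_num)]; decide⟩
  · exact ⟨by norm_num, by decide, by rw [syr_eq (M := -5) 2 (by norm_num) (by norm_num)]; decide⟩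
  · exact ⟨by norm_num, by decide, by rw [syr_eq (M := -25) 1 (by norm_num) (by norm_num)]; decide⟩
  · exact ⟨by norm_num, by decide, by rw [syr_eq (M := -37) 1 (by norm_num) (by norm_num)]; decide⟩
  · exact ⟨by norm_num, by decide, by rw [syr_eq (M := -55) 1 (by norm_num) (by norm_num)]; decide⟩
  · exact ⟨by norm_num, by decide, by rw [syr_eq (M := -41) 2 (by norm_num) (by norm_num)]; decide⟩
  · exact ⟨by norm_num, by decide, by rw [syr_eq (M := -61) 1 (by norm_num) (by norm_num)]; decide⟩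
  · exact ⟨by norm_num, by decide, by rw [syr_eq (M := -91) 1 (by norm_num) (by norm_num)]; decide⟩
  · exact ⟨by norm_num, by decide, by rw [syr_eq (M := -17) 4 (by norm_num) (by norm_num)]; decide⟩

theorem unbounded_invariant : Invariant {N : ℤ | ∀ M : ℤ, ∃ k : ℕ, M < |Syr^[k] N|} := by
  intro N _ _
  constructor
  · intro h M
    obtain ⟨k, hk⟩ := h (max M |N|)
    rcases k with _ | k
    · exact absurd hk (not_lt.2 (le_max_right _ _))
    · exact ⟨k, by
        rw [Function.iterate_succ_apply] at hk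
        exact lt_of_le_of_lt (le_max_left _ _) hk⟩
  · intro h M
    obtain ⟨k, hk⟩ := h M
    exact ⟨k + 1, by rw [Function.iterate_succ_apply]; exact hk⟩

theorem basin_invariant {Z : Finset ℤ} (hZ : Closed Z) : Invariant {N : ℤ | ∃ k : ℕ, Syr^[k] N ∈ Z} :=
  fun N _ _ => Pool.Agent.W26.HN.Ba_inv (fun y hy => (hZ y hy).2.2) N

/-- THE BASINS ALONG `-⌊n ^ c⌋`. Let `1 < c < 101/100`.

(1) There is a `K`, depending only on `c`, such that every invariant set satisfies the transfer inequality.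
(2) Every invariant set has, among the odd terms of the sequence, the same density as among all negative
odd integers; this density is `0` only for the empty set, and `1` only if the set contains all negative odd
integers.
(3) The orbits of almost all odd terms of the sequence enter one of the three known cycles iff Q1 is true,
and the orbits of almost all odd terms of the sequence are bounded iff all orbits of negative odd integers
are bounded. -/
theorem result {c : ℝ} (hc : 1 < c) (hc' : c < 101 / 100) :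
    (∃ K : ℝ, ∀ S : Set ℤ, Invariant S → Transfer c K (fun N => N ∈ S)) ∧
    (∀ S : Set ℤ, Invariant S → ∃ d : ℝ, HasDensity (fun N => N ∈ S) d ∧
      HasDensityAlong c (fun N => N ∈ S) d ∧ (d = 0 ↔ ∀ N, N < 0 → Odd N → N ∉ S) ∧
      (d = 1 ↔ ∀ N, N < 0 → Odd N → N ∈ S)) ∧
    (HasDensityAlong c (fun N => ∃ k : ℕ, Syr^[k] N ∈ C) 1 ↔
      ∀ N, N < 0 → Odd N → ∃ k : ℕ, Syr^[k] N ∈ C) ∧
    (HasDensityAlong c (fun N => ∃ M : ℤ, ∀ k : ℕ, |Syr^[k] N| ≤ M) 1 ↔
      ∀ N, N < 0 → Odd N → ∃ M : ℤ, ∀ k : ℕ, |Syr^[k] N| ≤ M) := by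
  have h3 : ∀ S : Set ℤ, Invariant S → ∃ d : ℝ, HasDensity (fun N => N ∈ S) d ∧
      HasDensityAlong c (fun N => N ∈ S) d ∧ (d = 0 ↔ ∀ N, N < 0 → Odd N → N ∉ S) ∧
      (d = 1 ↔ ∀ N, N < 0 → Odd N → N ∈ S) := by
    intro S hS
    obtain ⟨d, g1, g2, g3, g4⟩ := Pool.Agent.H417_psn.seq_inv hc hc' (inv_conv hS)
    refine ⟨d, density_of g1, along_of g2, ?_, ?_⟩
    · rw [g3]
      exact forall_congr' fun N => forall_congr' fun _ => by rw [Int.odd_iff]
    · rw [g4]
      exact forall_congr' fun N => forall_congr' fun _ => by rw [Int.odd_iff]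
  have h5 : ∀ S : Set ℤ, Invariant S → (HasDensityAlong c (fun N => N ∈ S) 1 ↔ ∀ N, N < 0 → Odd N → N ∈ S) := by
    intro S hS
    obtain ⟨d, _, g2, _, g4⟩ := h3 S hS
    rw [← g4]
    constructor
    · intro h
      exact along_unique g2 h
    · intro h
      rw [← h]
      exact g2
  refine ⟨?_, h3, ?_, ?_⟩
  · obtain ⟨K, _, hK⟩ := Pool.Agent.H417_psn.TS_inv hc hc'
    exact ⟨K, fun S hS => transfer_of (hK S (inv_conv hS))⟩
  · exact h5 {N : ℤ | ∃ k : ℕ, Syr^[k] N ∈ C} (basin_invariant closed_C)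
  · have hS : Invariant {N : ℤ | ∃ M : ℤ, ∀ k : ℕ, |Syr^[k] N| ≤ M} := by
      intro N hN hodd
      have h := unbounded_invariant N hN hodd
      have e : ∀ N : ℤ, N ∈ {N : ℤ | ∃ M : ℤ, ∀ k : ℕ, |Syr^[k] N| ≤ M} ↔
          ¬ N ∈ {N : ℤ | ∀ M : ℤ, ∃ k : ℕ, M < |Syr^[k] N|} := by
        intro N
        simp only [Set.mem_ofPred_eq]
        push Not
        rfl
      rw [e, e, h]
    exact h5 _ hS

end Pool.Agent.Results.MP_005f52_nt.PiatetskiShapiroBasins
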