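import Pool.Agent.H417_psn.G

/-!
# The entrance times of the negative odd integers of the form `-⌊n ^ c⌋`

Let `1 < c < 101/100` and let `Z` be a finite nonempty set of negative odd integers with `Syr(Z) ⊆ Z`, for
example one of the known cycles, an unknown cycle, or the set `C` of the problem. For every set `A` of
natural numbers the number of the `n ≤ X` for which `-⌊n ^ c⌋` is odd and enters `Z` after `k` Syracuse
steps with `k ∈ A` is, up to `O(X ^ (1 - 1/4000))`, uniformly in `A`, the sum of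
`(m + 1) ^ (1/c) - m ^ (1/c)` over the odd `m ≤ X ^ c` for which `-m` has this property. So along the
sequence the entrance times have the same laws as for all negative odd integers, and every number near
the mean value is the entrance time of `X / √(log X)` terms, up to constants.

Author: helper417. Uses the dispersion method of Pool/Agent/Y965/PL for the map `3 x - 1`,
Pool/Agent/W26/HN and the local limit law of Pool/Agent/R468/GL.
-/

set_option autoImplicit false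

namespace Pool.Agent.Results.MP_005f52_nt.PiatetskiShapiroEntranceTimes

open Filter Topology

/-- The Syracuse map. -/
def Syr (N : ℤ) : ℤ := (3 * N + 1) / 2 ^ padicValInt 2 (3 * N + 1)

/-- The orbit of `N` enters `Z` after exactly `k` steps. -/
def Enters (Z : Finset ℤ) (k : ℕ) (N : ℤ) : Prop := Syr^[k] N ∈ Z ∧ ∀ i < k, Syr^[i] N ∉ Z

/-- `Z` is a finite set of negative odd integers with `Syr(Z) ⊆ Z`, for example a periodic orbit, or a
union of periodic orbits. -/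
def Closed (Z : Finset ℤ) : Prop := ∀ y ∈ Z, y < 0 ∧ Odd y ∧ Syr y ∈ Z

/-- Among the negative odd integers, those with the property `P` have natural density `δ`:
`2 / X` times the number of negative odd `N ≥ -X` with `P N` tends to `δ`. -/
def HasDensity (P : ℤ → Prop) (δ : ℝ) : Prop :=
  Tendsto (fun X : ℕ => 2 / (X : ℝ) * ({N : ℤ | -(X : ℤ) ≤ N ∧ N < 0 ∧ Odd N ∧ P N}.ncard : ℝ))
    atTop (𝓝 δ)

/-- the number of the `n ≤ X` for which `-⌊n ^ c⌋` is odd and has the property `P` -/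
noncomputable def Along (c : ℝ) (P : ℤ → Prop) (X : ℕ) : ℕ :=
  {n : ℕ | 1 ≤ n ∧ n ≤ X ∧ Odd (-⌊(n : ℝ) ^ c⌋) ∧ P (-⌊(n : ℝ) ^ c⌋)}.ncard

/-- Among the odd terms of the sequence `-⌊n ^ c⌋`, those with the property `P` have density `δ`:
`2 / X` times the number of the `n ≤ X` for which `-⌊n ^ c⌋` is odd and has the property `P` tends to `δ`.
(For the property which holds always, `δ = 1`: see the theorem.) -/
def HasDensityAlong (c : ℝ) (P : ℤ → Prop) (δ : ℝ) : Prop :=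
  Tendsto (fun X : ℕ => 2 / (X : ℝ) * (Along c P X : ℝ)) atTop (𝓝 δ)

open Classical in
/-- The number of the `n ≤ X` for which `-⌊n ^ c⌋` is odd and has the property `P` is, up to
`K X ^ (1 - 1/4000)`, the sum of `(m + 1) ^ (1/c) - m ^ (1/c)` over the odd `m ≤ X ^ c` for which `-m` has
the property `P`. -/
def Transfer (c K : ℝ) (P : ℤ → Prop) : Prop := ∀ X : ℕ, 1 ≤ X →
  |(Along c P X : ℝ) - ∑ m ∈ (Finset.Icc 1 ⌊(X : ℝ) ^ c⌋₊).filter (fun m : ℕ => Odd (-(m : ℤ)) ∧ P (-(m : ℤ))),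
    (((m : ℝ) + 1) ^ (1 / c) - (m : ℝ) ^ (1 / c))| ≤ K * (X : ℝ) ^ (1 - 1 / 4000 : ℝ)

/-- `log |N| / log (4/3) + x * log 2 * √(2 log |N| / (log (4/3))^3)` -/
noncomputable def bound (x : ℝ) (N : ℤ) : ℝ :=
  1 / Real.log (4 / 3) * Real.log |(N : ℝ)|
    + x * (Real.log 2 * Real.sqrt (2 * Real.log |(N : ℝ)| / Real.log (4 / 3) ^ 3))

/-- The distribution function of the standard normal law. -/
noncomputable def Phi (x : ℝ) : ℝ :=
  ProbabilityTheory.cdf (ProbabilityTheory.gaussianReal 0 1) x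

open Pool.Agent.W26.HN Pool.Agent.H499R2.ND in
theorem density_of {P : ℤ → Prop} {δ : ℝ} (h : Dn (fun n : ℕ => n % 2 = 1 ∧ P (-(n : ℤ))) (δ / 2)) :
    HasDensity P δ := by
  unfold HasDensity
  have h1 := h.const_mul 2
  rw [mul_div_cancel₀ δ (by norm_num : (2 : ℝ) ≠ 0)] at h1
  refine h1.congr fun X => ?_
  have e : {N : ℤ | -(X : ℤ) ≤ N ∧ N < 0 ∧ Odd N ∧ P N}
      = (fun n : ℕ => -(n : ℤ)) '' {n : ℕ | 1 ≤ n ∧ n ≤ X ∧ n % 2 = 1 ∧ P (-(n : ℤ))} := by
    ext N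
    constructor
    · rintro ⟨g1, g2, g3, g4⟩
      have g3' := Int.odd_iff.1 g3
      refine ⟨N.natAbs, ⟨by omega, by omega, by omega, ?_⟩, ?_⟩
      · have : -((N.natAbs : ℕ) : ℤ) = N := by omega
        rw [this]; exact g4
      · show -((N.natAbs : ℕ) : ℤ) = N
        omega
    · rintro ⟨n, ⟨g1, g2, g3, g4⟩, rfl⟩
      refine ⟨?_, ?_, ?_, g4⟩
      · show -(X : ℤ) ≤ -(n : ℤ)
        omega
      · show -(n : ℤ) < 0
        omega
      · rw [Int.odd_iff]
        show -(n : ℤ) % 2 = 1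
        omega
  rw [e, Set.ncard_image_of_injective _ (fun a b hab => by
    have : -(a : ℤ) = -(b : ℤ) := hab
    omega)]
  unfold cnt
  ring

theorem floor_eq (c : ℝ) (n : ℕ) : (⌊(n : ℝ) ^ c⌋ : ℤ) = ((⌊(n : ℝ) ^ c⌋₊ : ℕ) : ℤ) :=
  (Int.natCast_floor_eq_floor (by positivity)).symm

theorem odd_neg_iff (n : ℕ) : Odd (-(n : ℤ)) ↔ n % 2 = 1 := by
  rw [Int.odd_iff]
  omega

theorem along_eq (c : ℝ) (P : ℤ → Prop) (X : ℕ) : Along c P X =
    {n : ℕ | 1 ≤ n ∧ n ≤ X ∧ (fun m : ℕ => m % 2 = 1 ∧ P (-(m : ℤ))) ⌊(n : ℝ) ^ c⌋₊}.ncard := by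
  unfold Along
  congr 1
  ext n
  simp only [Set.mem_ofPred_eq]
  rw [floor_eq, odd_neg_iff]

open Pool.Agent.Y965.PL in
theorem along_of {c : ℝ} {P : ℤ → Prop} {δ : ℝ}
    (h : MnS (ps c) (ind (fun n : ℕ => n % 2 = 1 ∧ P (-(n : ℤ)))) (δ / 2)) : HasDensityAlong c P δ := by
  have h1 := Pool.Agent.H417_psn.MnS_card h
  unfold HasDensityAlong
  refine h1.congr fun X => ?_
  rw [along_eq]

open Pool.Agent.Y965.PL in
theorem transfer_of {c K : ℝ} {P : ℤ → Prop}
    (h : TS c K (fun z => ind (fun n : ℕ => n % 2 = 1 ∧ P (-(n : ℤ))) z.toNat)) : Transfer c K P := by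
  classical
  intro X hX
  have h1 := Pool.Agent.H417_psn.TS_card h X hX
  rw [along_eq]
  have e : (Finset.Icc 1 ⌊(X : ℝ) ^ c⌋₊).filter (fun m : ℕ => Odd (-(m : ℤ)) ∧ P (-(m : ℤ))) =
      (Finset.Icc 1 ⌊(X : ℝ) ^ c⌋₊).filter (fun m : ℕ => m % 2 = 1 ∧ P (-(m : ℤ))) := by
    ext m
    simp only [Finset.mem_filter, odd_neg_iff]
  rw [e]
  convert h1

theorem bound_eq (x : ℝ) (n : ℕ) : bound x (-(n : ℤ)) = Pool.Agent.H499R2.HL.bo x (Real.log n) := by
  unfold bound Pool.Agent.H499R2.HL.bo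
  have : |((-(n : ℤ) : ℤ) : ℝ)| = n := by
    push_cast
    rw [abs_neg, abs_of_nonneg (Nat.cast_nonneg n)]
  rw [this]

theorem closed_conv {Z : Finset ℤ} (hZ : Closed Z) :
    ∀ y ∈ Z, y < 0 ∧ y % 2 = 1 ∧ Pool.Agent.W26.HN.Sy y ∈ Z :=
  fun y hy => ⟨(hZ y hy).1, Int.odd_iff.1 (hZ y hy).2.1, (hZ y hy).2.2⟩

theorem PE_iff (Z : Finset ℤ) (k m : ℕ) : Pool.Agent.H417_psn.PE Z {k} m ↔ (m % 2 = 1 ∧ Enters Z k (-(m : ℤ))) := by
  unfold Pool.Agent.H417_psn.PE
  refine and_congr_right fun _ => ?_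
  constructor
  · rintro ⟨k', hk', h⟩
    have e : k' = k := hk'
    subst e
    exact h
  · intro h
    exact ⟨k, rfl, h⟩

theorem along_PE (c : ℝ) (Z : Finset ℤ) (k X : ℕ) : Along c (Enters Z k) X =
    {n : ℕ | 1 ≤ n ∧ n ≤ X ∧ Pool.Agent.H417_psn.PE Z {k} ⌊(n : ℝ) ^ c⌋₊}.ncard := by
  rw [along_eq]
  congr 1
  ext n
  simp only [Set.mem_ofPred_eq, PE_iff]

/-- THE ENTRANCE TIMES ALONG `-⌊n ^ c⌋`. Let `1 < c < 101/100` and let `Z` be a nonempty finite set of
negative odd integers with `Syr(Z) ⊆ Z`.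

(1) There is a `K` such that for every set `A` of natural numbers the integers which enter `Z` after `k`
steps for some `k ∈ A` satisfy the transfer inequality.
(2) The density `δ` of the integers which enter `Z` is, among the odd terms of the sequence, the same as
among all negative odd integers, and positive; the entrance times of the odd terms of the sequence are
equidistributed modulo every `q`, and in each class they have a normal limit law.
(3) For all `B`, all large `X` and all `k` with `|k - (c / log (4/3)) log X| ≤ B √(log X)` the number of the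
odd terms `-⌊n ^ c⌋`, `n ≤ X`, which enter `Z` after exactly `k` steps lies between `a₁ X / √(log X)` and
`a₂ X / √(log X)`, with positive constants `a₁`, `a₂`. -/
theorem result {c : ℝ} (hc : 1 < c) (hc' : c < 101 / 100) (Z : Finset ℤ) (hne : Z.Nonempty) (hZ : Closed Z) :
    (∃ K : ℝ, ∀ A : Set ℕ, Transfer c K (fun N => ∃ k ∈ A, Enters Z k N)) ∧
    (∃ δ : ℝ, 0 < δ ∧
      HasDensity (fun N => ∃ k : ℕ, Syr^[k] N ∈ Z) δ ∧
      HasDensityAlong c (fun N => ∃ k : ℕ, Syr^[k] N ∈ Z) δ ∧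
      ∀ (q : ℕ) (b : ℤ), 1 ≤ q →
        HasDensityAlong c (fun N => ∃ k : ℕ, Enters Z k N ∧ (k : ℤ) ≡ b [ZMOD q]) (δ / q) ∧
        ∀ x : ℝ, HasDensityAlong c (fun N => ∃ k : ℕ, Enters Z k N ∧ (k : ℝ) ≤ bound x N ∧
          (k : ℤ) ≡ b [ZMOD q]) (δ * Phi x / q)) ∧
    (∀ B : ℝ, 0 < B → ∃ a₁ a₂ : ℝ, 0 < a₁ ∧ 0 < a₂ ∧
      ∃ X₀ : ℕ, ∀ X : ℕ, X₀ ≤ X → ∀ k : ℕ,
        |(k : ℝ) - c / Real.log (4 / 3) * Real.log X| ≤ B * Real.sqrt (Real.log X) →
        a₁ * X / Real.sqrt (Real.log X) ≤ (Along c (Enters Z k) X : ℝ) ∧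
        (Along c (Enters Z k) X : ℝ) ≤ a₂ * X / Real.sqrt (Real.log X)) := by
  refine ⟨?_, ?_, ?_⟩
  · obtain ⟨K, _, hK⟩ := Pool.Agent.H417_psn.TS_PE hc hc' (fun y hy => (closed_conv hZ y hy).2)
    exact ⟨K, fun A => transfer_of (hK A)⟩
  · obtain ⟨δ, h0, h1, hBa, hlaw⟩ := Pool.Agent.H417_psn.law_fin (closed_conv hZ) hne
    obtain ⟨g1, g2⟩ := Pool.Agent.H417_psn.seq_law hc hc' (closed_conv hZ) h0 h1 hBa hlaw
    refine ⟨δ, h0, density_of hBa, along_of g1, fun q b hq => ⟨along_of (g2 q b hq).1, fun x => along_of ?_⟩⟩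
    have h6 := (g2 q b hq).2 x
    have e : δ / (q : ℝ) * Pool.Agent.H499R2.ND.Phi x / 2 = δ * Phi x / q / 2 := by
      unfold Phi
      rw [← Pool.Agent.H499R2.ND.phi_cdf]
      ring
    rw [e] at h6
    refine Pool.Agent.H417_psn.MnS_iff (fun n => and_congr_right fun _ => exists_congr fun k => ?_) h6
    rw [bound_eq]
    exact Iff.rfl
  · intro B hB
    obtain ⟨a₁, ha₁, X₁, h1⟩ := Pool.Agent.H417_psn.seq_lower hc hc' hne (closed_conv hZ) hB
    obtain ⟨a₂, ha₂, X₂, h2⟩ := Pool.Agent.H417_psn.seq_upper hc hc' hne (closed_conv hZ) hB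
    refine ⟨a₁, a₂, ha₁, ha₂, max X₁ X₂, fun X hX k hk => ?_⟩
    have e : c / Real.log (4 / 3) * Real.log X = 1 / Real.log (4 / 3) * (c * Real.log X) := by ring
    rw [e] at hk
    rw [along_PE]
    exact ⟨h1 X ((le_max_left _ _).trans hX) k hk, h2 X ((le_max_right _ _).trans hX) k hk⟩

end Pool.Agent.Results.MP_005f52_nt.PiatetskiShapiroEntranceTimes
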